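import Mathlib
import Pool.Agent.H.b53726.B

set_option autoImplicit false
set_option synthInstance.maxSize 1024

namespace Pool.Agent.Results.MP_b53726_co.Q2

open Pool.Agent.H.Room

variable {β : Type}

abbrev K := Fin 13

def bs (t : K → K) : Mp K
  | some x, some y => x - t (y - x)
  | some x, none => x
  | none, some y => y
  | none, none => 0

def r1 := bs ![0, 1, 8, 3, 7, 4, 12, 5, 9, 11, 6, 10, 2]
def c1 := bs ![0, 4, 1, 7, 8, 6, 9, 2, 11, 12, 10, 3, 5]
def r2 := bs ![0, 1, 7, 3, 8, 5, 11, 4, 10, 12, 6, 9, 2]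
def c2 := bs ![0, 8, 3, 1, 7, 10, 6, 12, 2, 11, 4, 5, 9]

lemma g1 : Good r1 c1 := by unfold Good Ln; decide +kernel
lemma g2 : Good r2 c2 := by unfold Good Ln; decide +kernel
lemma g3 : ∀ i j, i ≠ j → (occ r2 c2 i j ↔ ¬occ r1 c1 i j) := by unfold occ; decide +kernel
lemma g4 : occ r1 c1 3 0 ∧ occ r1 c1 0 3 := by unfold occ; decide +kernel

def pr (ρ : Mp K) (τ : Mp β) (f : K → K → β → β → β) : Mp (K × β)
  | some p, some q => if p.1 = q.1 then (p.1, τ (some p.2) (some q.2))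
      else (ρ (some p.1) (some q.1), f p.1 q.1 p.2 q.2)
  | some p, none => p
  | none, some q => q
  | none, none => (0, τ none none)

lemma pr_same {ρ : Mp K} {τ : Mp β} (h : Ln τ) {f : K → K → β → β → β} (x : K) {a b : Option β}
    (e : a ≠ b) : pr ρ τ f (a.map (x, ·)) (b.map (x, ·)) = (x, τ a b) := by
  rcases a with _ | a <;> rcases b with _ | b <;> simp_all [pr, h.2.2, h.1 (some _) none]

lemma split {u v : Option (K × β)} (h : u ≠ v) :
    (∃ x, ∃ a b : Option β, a ≠ b ∧ u = a.map (x, ·) ∧ v = b.map (x, ·)) ∨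
      ∃ x y a b, x ≠ y ∧ u = some (x, a) ∧ v = some (y, b) := by
  rcases u with _ | ⟨x, a⟩ <;> rcases v with _ | ⟨y, b⟩
  · exact absurd rfl h
  · exact .inl ⟨y, none, some b, by simp⟩
  · exact .inl ⟨x, some a, none, by simp⟩
  · by_cases e : x = y
    · exact .inl ⟨x, some a, some b, by simpa [e] using h⟩
    · exact .inr ⟨x, y, a, b, e, rfl, rfl⟩

lemma mi (x : K) : Function.Injective (Option.map fun a : β => (x, a)) :=
  Option.map_injective fun _ _ h => by simpa using h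

lemma ne1 {ρ : Mp K} (h : Ln ρ) {x y : K} (e : x ≠ y) : ρ (some x) (some y) ≠ x := fun c => by
  simpa using h.2.1 (some x) (some y) none (by simpa using e.symm) (by simp)
    (by rw [c, h.1 _ _ (by simp), h.2.2])

lemma pr_ln {ρ : Mp K} {τ : Mp β} (h : Ln ρ) (h' : Ln τ) {f : K → K → β → β → β}
    (f1 : ∀ x y a b, x ≠ y → f x y a b = f y x b a) (f2 : ∀ x y a b c, f x y a b = f x y a c → b = c) :
    Ln (pr ρ τ f) := by
  refine ⟨fun u v e => ?_, fun u v w e e' => ?_, fun _ => rfl⟩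
  · rcases split e with ⟨x, a, b, c, rfl, rfl⟩ | ⟨x, y, a, b, c, rfl, rfl⟩
    · rw [pr_same h' _ c, pr_same h' _ c.symm, h'.1 _ _ c]
    · simp [pr, c, c.symm, f1 x y a b c, h.1 (some x) (some y)]
  have k : ∀ x (a b : Option β) y z c d, a ≠ b → y ≠ z → a.map (x, ·) = some (y, c) →
      pr ρ τ f (a.map (x, ·)) (b.map (x, ·)) ≠ pr ρ τ f (a.map (x, ·)) (some (z, d)) :=
    fun x a b y z c d p q r s => by
    rw [pr_same h' _ p, r] at s
    obtain rfl : x = y := by cases a <;> simp_all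
    simp only [pr, q, if_false, Prod.mk.injEq] at s
    exact ne1 h q s.1.symm
  rcases split e.symm with ⟨x, a, b, c, rfl, rfl⟩ | ⟨x, y, a, b, c, rfl, rfl⟩ <;>
    rcases split e'.symm with ⟨x', a', b', c', p, rfl⟩ | ⟨x', y', a', b', c', p, rfl⟩ <;> intro s
  · rw [pr_same h' _ c, p, pr_same h' _ c', Prod.mk.injEq] at s
    obtain ⟨rfl, s⟩ := s
    obtain rfl := mi _ p
    rw [h'.2.1 _ _ _ c.symm c'.symm s]
  · exact absurd s (k _ _ _ _ _ _ _ c c' p)
  · rw [p] at s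
    exact absurd s.symm (k _ _ _ _ _ _ _ c' c p.symm)
  · obtain ⟨rfl, rfl⟩ : x = x' ∧ a = a' := by simpa using p
    simp only [pr, c, c', if_false, Prod.mk.injEq] at s
    obtain rfl : y = y' := by
      simpa using h.2.1 _ _ _ (by simpa using c.symm) (by simpa using c'.symm) s.1
    rw [f2 _ _ _ _ _ s.2]

lemma ne2 {ρ γ : Mp K} (g : Good ρ γ) {x y : K} (e : x ≠ y) :
    ρ (some x) (some y) ≠ γ (some x) (some y) := fun c => by
  simpa using g.2.2 (some x) (some y) none (some _) (by simpa using e) (by simp)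
    (g.1.2.2 _).symm (by rw [g.2.1.2.2, c])

variable [AddCommGroup β]

def fr (_ _ : K) (a b : β) : β := a + b

def fc (x y : K) (a b : β) : β := if x < y then a - b else b - a

lemma finj (h2 : ∀ a : β, a + a = 0 → a = 0) (x y : K) :
    Function.Injective fun p : β × β => (fr x y p.1 p.2, fc x y p.1 p.2) := fun p q h => by
  simp only [fr, fc, Prod.mk.injEq] at h
  have : p.1 = q.1 := sub_eq_zero.1 (h2 _ (by
    split_ifs at h
    · linear_combination (norm := abel1) h.1 + h.2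
    · linear_combination (norm := abel1) h.1 - h.2))
  exact Prod.ext this (by simpa [this] using h.1)

lemma pr_good (h2 : ∀ a : β, a + a = 0 → a = 0) {ρ γ : Mp K} {τ κ : Mp β} (g : Good ρ γ)
    (g' : Good τ κ) : Good (pr ρ τ fr) (pr γ κ fc) := by
  have f1 : ∀ x y (a b : β), x ≠ y → fc x y a b = fc y x b a := fun x y a b e => by
    rcases lt_or_gt_of_ne e with c | c <;> simp [fc, c, c.not_gt]
  refine ⟨pr_ln g.1 g'.1 (fun _ _ _ _ _ => add_comm ..) fun _ _ _ _ _ => add_left_cancel,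
    pr_ln g.2.1 g'.2.1 f1 fun x y a b c h => by unfold fc at h; split_ifs at h <;> simpa using h,
    fun u v w z e e' => ?_⟩
  rcases split e with ⟨x, a, b, c, rfl, rfl⟩ | ⟨x, y, a, b, c, rfl, rfl⟩ <;>
    rcases split e' with ⟨x', a', b', c', rfl, rfl⟩ | ⟨x', y', a', b', c', rfl, rfl⟩ <;> intro s t <;>
    (try simp only [pr_same g'.1 _ c, pr_same g'.2.1 _ c] at s t) <;>
    (try simp only [pr_same g'.1 _ c', pr_same g'.2.1 _ c'] at s t) <;>
    simp only [pr, c, c', if_false, Prod.mk.injEq] at s t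
  · obtain ⟨rfl, s⟩ := s
    exact (g'.2.2 _ _ _ _ c c' s t.2).imp (fun h => by simp [h]) fun h => by simp [h]
  · exact absurd (s.1.symm.trans t.1) (ne2 g c')
  · exact absurd (s.1.trans t.1.symm) (ne2 g c)
  · rcases g.2.2 _ _ _ _ (by simpa using c) (by simpa using c') s.1 t.1 with ⟨⟨⟩, ⟨⟩⟩ | ⟨⟨⟩, ⟨⟩⟩
    · simpa [c] using finj h2 x y (a₁ := (a, b)) (a₂ := (a', b')) (Prod.ext s.2 t.2)
    · simpa [c] using finj h2 x y (a₁ := (a, b)) (a₂ := (b', a'))
        (Prod.ext (s.2.trans (add_comm ..)) (t.2.trans (f1 _ _ _ _ c')))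

lemma pr_occ [Finite β] (h2 : ∀ a : β, a + a = 0 → a = 0) {ρ γ : Mp K} {τ κ : Mp β} (g : Good ρ γ)
    (g' : Good τ κ) (i j : K × β) : occ (pr ρ τ fr) (pr γ κ fc) i j ↔
      if i.1 = j.1 then occ τ κ i.2 j.2 else occ ρ γ i.1 j.1 := by
  constructor
  · rintro ⟨u, v, e, rfl, rfl⟩
    rcases split e with ⟨x, a, b, c, rfl, rfl⟩ | ⟨x, y, a, b, c, rfl, rfl⟩
    · simpa [pr_same g'.1 _ c, pr_same g'.2.1 _ c] using ⟨a, b, c, rfl, rfl⟩
    · simpa [pr, c, ne2 g c] using ⟨some x, some y, by simpa using c, rfl, rfl⟩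
  split_ifs with e
  · rintro ⟨a, b, c, p, q⟩
    exact ⟨a.map (i.1, ·), b.map (i.1, ·), (mi _).ne c, by rw [pr_same g'.1 _ c, p],
      by rw [pr_same g'.2.1 _ c, q, e]⟩
  · rintro ⟨x, y, c, p, q⟩
    rcases x with _ | x <;> rcases y with _ | y
    · exact absurd rfl c
    · exact absurd (by rw [← p, ← q, g.1.2.2, g.2.1.2.2]) e
    · exact absurd (by rw [← p, ← q, g.1.1 _ _ c, g.2.1.1 _ _ c, g.1.2.2, g.2.1.2.2]) e
    obtain ⟨⟨a, b⟩, h⟩ := Finite.injective_iff_surjective.1 (finj h2 x y) (i.2, j.2)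
    replace c : x ≠ y := by simpa using c
    simp only [Prod.mk.injEq] at h
    exact ⟨some (x, a), some (y, b), by simp [c], by simp [pr, c, p, h], by simp [pr, c, q, h]⟩

def Fam (β : Type) [AddCommGroup β] : Prop := (∀ a : β, a + a = 0 → a = 0) ∧
  ∃ ρ γ ρ' γ' : Mp β, Good ρ γ ∧ Good ρ' γ' ∧ ∀ i j, i ≠ j → (occ ρ' γ' i j ↔ ¬occ ρ γ i j)

lemma step [Finite β] {τ κ τ' κ' : Mp β} (h2 : ∀ a : β, a + a = 0 → a = 0) (g : Good τ κ)
    (g' : Good τ' κ') (h : ∀ i j, i ≠ j → (occ τ' κ' i j ↔ ¬occ τ κ i j)) (i j : K × β) (e : i ≠ j) :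
    occ (pr r2 τ' fr) (pr c2 κ' fc) i j ↔ ¬occ (pr r1 τ fr) (pr c1 κ fc) i j := by
  rw [pr_occ h2 g2 g', pr_occ h2 g1 g]
  split_ifs with c
  exacts [h _ _ fun d => e (Prod.ext c d), g3 _ _ c]

lemma fam (k : ℕ) : ∃ (β : Type) (_ : Fintype β) (_ : AddCommGroup β),
    Fintype.card β = 13 ^ (k + 1) ∧ Fam β := by
  induction k with
  | zero => exact ⟨K, inferInstance, inferInstance, by simp, by decide, _, _, _, _, g1, g2, g3⟩
  | succ k ih =>
    obtain ⟨β, _, _, c, h2, _, _, _, _, g, g', h⟩ := ih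
    exact ⟨K × β, inferInstance, inferInstance, by simp [c, pow_succ'], fun a e =>
      Prod.ext ((by decide : ∀ a : K, a + a = 0 → a = 0) _ (congrArg (·.1) e)) (h2 _ (congrArg (·.2) e)),
      _, _, _, _, pr_good h2 g1 g, pr_good h2 g2 g', step h2 g g' h⟩

theorem result : {r : ℕ | ∃ (α : Type) (_ : Fintype α), Fintype.card α = r ∧
    ∃ a : Arr α, Room a ∧ HasComp a ∧ ¬∃ b, Iso a b ∧ Skew b}.Infinite := by
  refine Set.infinite_of_injective_forall_mem (f := fun k => 13 ^ (k + 2))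
    (fun a b h => by simpa using h) fun k => ?_
  obtain ⟨β, _, _, c, h2, τ, κ, _, _, g, g', h⟩ := fam k
  have G := pr_good h2 g1 g
  have := G.hasComp (pr_good h2 g2 g') (step h2 g g' h)
  refine ⟨K × β, inferInstance, by simp [c, pow_succ'], _, this.1, this.2, ?_⟩
  rintro ⟨b, ⟨r, c', σ, hb⟩, ⟨-, b1⟩, b2⟩
  obtain ⟨u, v, e, p, q, o1, o2⟩ : ∃ u v, u ≠ v ∧ u ≠ σ.symm none ∧ v ≠ σ.symm none ∧
      occ (pr r1 τ fr) (pr c1 κ fc) (pr r1 τ fr (σ.symm none) u) (pr c1 κ fc (σ.symm none) v) ∧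
      occ (pr r1 τ fr) (pr c1 κ fc) (pr r1 τ fr (σ.symm none) v) (pr c1 κ fc (σ.symm none) u) := by
    simp only [pr_occ h2 g1 g]
    rcases σ.symm none with _ | ⟨x, a⟩
    · exact ⟨some (3, 0), some (0, 0), by simp, by simp, by simp, by simpa [pr] using g4⟩
    · have : Nontrivial β := Fintype.one_lt_card_iff_nontrivial.1 (by rw [c]; simp)
      obtain ⟨y, hy⟩ := exists_ne x
      obtain ⟨a, ha⟩ := exists_ne (0 : β)
      have := ne2 g1 hy.symm
      exact ⟨some (y, a), some (y, 0), by simpa, by simp [hy], by simp [hy], by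
        simpa [pr, hy.symm, this] using ⟨some x, some y, by simpa using hy.symm, rfl, rfl⟩⟩
  obtain ⟨i, hi⟩ := Option.ne_none_iff_exists'.1 (σ.eq_symm_apply.not.1 p)
  obtain ⟨j, hj⟩ := Option.ne_none_iff_exists'.1 (σ.eq_symm_apply.not.1 q)
  have i1 := G.iso hb b1 hi
  have i2 := G.iso hb b1 hj
  have := b2 i j fun d => e (σ.injective (by rw [hi, hj, d]))
  rw [← i1.1, ← i2.2, hb, i1.1, i2.2, ← i2.1, ← i1.2, hb] at this
  simp [arr_none, o1, o2] at this

end Pool.Agent.Results.MP_b53726_co.Q2
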